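import Pool.Agent.MP_c1891a_nt.G43.SpecA

/-
The field of asymptotic numbers is complete and algebraically closed, and the complex exponential
induces the exponential series.
-/

namespace Pool.Agent.MP_c1891a_nt.G43

open Finset Filter Topology

section

variable {N : ℕ → ℕ} {K : Type} [NontriviallyNormedField K] {M : Subring (ℕ → ℂ)} {cl : M →+* K}

theorem uf2_evN (hN : Tendsto N atTop atTop) (b : ℝ) :
    ∀ᶠ n in hyperfilter ℕ, b ≤ (N n : ℝ) :=
  ((tendsto_natCast_atTop_atTop.comp hN).eventually_ge_atTop b).filter_mono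
    Nat.hyperfilter_le_atTop

theorem uf2_evpow (hN : Tendsto N atTop atTop) (c : ℝ) {t : ℝ} (ht : 0 < t) :
    ∀ᶠ n in hyperfilter ℕ, c ≤ (N n : ℝ) ^ t :=
  (((tendsto_rpow_atTop ht).comp (tendsto_natCast_atTop_atTop.comp hN)).eventually_ge_atTop
    c).filter_mono Nat.hyperfilter_le_atTop

theorem uf2_dom (h : UF N M cl) {x y : ℕ → ℂ} (hy : y ∈ M)
    (hxy : ∀ᶠ n in hyperfilter ℕ, ‖x n‖ ≤ ‖y n‖) : x ∈ M := by
  obtain ⟨C, hC⟩ := (h.mem y).1 hy
  refine (h.mem x).2 ⟨C, ?_⟩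
  filter_upwards [hC, hxy] with n h1 h2 using h2.trans h1

theorem uf2_const (hN : Tendsto N atTop atTop) (h : UF N M cl) (c : ℂ) : (fun _ => c) ∈ M := by
  refine (h.mem _).2 ⟨1, ?_⟩
  filter_upwards [uf2_evN hN ‖c‖] with n hn using by simpa using hn

theorem uf2_le (hN : Tendsto N atTop atTop) (h : UF N M cl) (x : M) (c t : ℝ)
    (hx : ∀ᶠ n in hyperfilter ℕ, ‖x.1 n‖ ≤ c * (N n : ℝ) ^ t) : ‖cl x‖ ≤ Real.exp t := by
  have key : ∀ s : ℝ, t < s → ‖cl x‖ ≤ Real.exp s := by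
    intro s hs
    refine h.le x s ?_
    filter_upwards [hx, uf2_evpow hN c (sub_pos.2 hs), uf2_evN hN 1] with n h1 h2 h3
    have hp : (0 : ℝ) < N n := lt_of_lt_of_le one_pos h3
    calc ‖x.1 n‖ ≤ c * (N n : ℝ) ^ t := h1
      _ ≤ (N n : ℝ) ^ (s - t) * (N n : ℝ) ^ t :=
        mul_le_mul_of_nonneg_right h2 (Real.rpow_nonneg hp.le _)
      _ = (N n : ℝ) ^ s := by rw [← Real.rpow_add hp]; congr 1; ring
  have ht : Tendsto Real.exp (𝓝[>] t) (𝓝 (Real.exp t)) :=
    (Real.continuous_exp.tendsto t).mono_left nhdsWithin_le_nhds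
  exact ge_of_tendsto ht (eventually_nhdsWithin_of_forall key)

theorem uf2_lt_one {r : ℝ} (h0 : 0 ≤ r) (h1 : r < 1) : ∃ t : ℝ, 0 < t ∧ r < Real.exp (-t) := by
  refine ⟨-Real.log ((r + 1) / 2), ?_, ?_⟩
  · exact neg_pos.2 (Real.log_neg (by linarith) (by linarith))
  · rw [neg_neg, Real.exp_log (by linarith)]
    linarith

theorem uf2_UK (hN : Tendsto N atTop atTop) (h : UF N M cl) : UK K := by
  intro m hm
  have e : cl (m : M) = (m : K) := map_natCast cl m
  have e2 : ∀ n, ‖(m : M).1 n‖ = m := by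
    intro n
    have : (m : M).1 n = (m : ℂ) := by simp
    rw [this, Complex.norm_natCast]
  apply le_antisymm
  · have := uf2_le hN h (m : M) m 0 (Eventually.of_forall fun n => by simp)
    rwa [e, Real.exp_zero] at this
  · by_contra hlt
    obtain ⟨t, ht, hlt⟩ := uf2_lt_one (norm_nonneg _) (not_le.1 hlt)
    rw [← e] at hlt
    obtain ⟨n, h1, h2⟩ := ((h.lt _ _ hlt).and (uf2_evN hN 2)).exists
    rw [e2] at h1
    have h3 : (N n : ℝ) ^ (-t) < 1 :=
      Real.rpow_lt_one_of_one_lt_of_neg (by linarith) (by linarith)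
    have h4 : (1 : ℝ) ≤ m := by exact_mod_cast Nat.one_le_iff_ne_zero.2 hm
    linarith

theorem uf2_root (d : ℕ) (hd : 0 < d) (a : ℕ → ℂ) :
    ∃ z : ℂ, z ^ d + ∑ i ∈ range d, a i * z ^ i = 0 ∧ ‖z‖ ≤ 1 + ∑ i ∈ range d, ‖a i‖ := by
  set r : Polynomial ℂ := ∑ i ∈ range d, Polynomial.C (a i) * Polynomial.X ^ i with hr
  have hrd : r.degree < d := by
    rw [hr]
    refine (Polynomial.degree_sum_le _ _).trans_lt ?_
    refine (Finset.sup_lt_iff (WithBot.bot_lt_coe d)).2 fun i hi => ?_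
    exact (Polynomial.degree_C_mul_X_pow_le _ _).trans_lt (Nat.cast_lt.2 (mem_range.1 hi))
  have hdeg : (Polynomial.X ^ d + r : Polynomial ℂ).degree = (d : WithBot ℕ) := by
    rw [Polynomial.degree_add_eq_left_of_degree_lt (by rwa [Polynomial.degree_X_pow]),
      Polynomial.degree_X_pow]
  obtain ⟨z, hz⟩ := IsAlgClosed.exists_root (Polynomial.X ^ d + r)
    (by rw [hdeg]; exact_mod_cast hd.ne')
  have hz' : z ^ d + ∑ i ∈ range d, a i * z ^ i = 0 := by
    simpa [hr, Polynomial.IsRoot, Polynomial.eval_finsetSum] using hz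
  refine ⟨z, hz', ?_⟩
  have hs : 0 ≤ ∑ i ∈ range d, ‖a i‖ := sum_nonneg fun i _ => norm_nonneg _
  by_cases h1 : ‖z‖ ≤ 1
  · linarith
  have h1 := not_le.1 h1
  obtain ⟨e, rfl⟩ : ∃ e, d = e + 1 := ⟨d - 1, by omega⟩
  have h2 : ‖z‖ ^ (e + 1) ≤ (∑ i ∈ range (e + 1), ‖a i‖) * ‖z‖ ^ e := by
    have e1 : z ^ (e + 1) = -∑ i ∈ range (e + 1), a i * z ^ i := eq_neg_of_add_eq_zero_left hz'
    rw [← norm_pow, e1, norm_neg, sum_mul]
    refine (norm_sum_le _ _).trans (sum_le_sum fun i hi => ?_)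
    rw [norm_mul, norm_pow]
    exact mul_le_mul_of_nonneg_left
      (pow_le_pow_right₀ h1.le (Nat.lt_succ_iff.1 (mem_range.1 hi))) (norm_nonneg _)
  rw [pow_succ'] at h2
  have h3 := le_of_mul_le_mul_right h2 (pow_pos (by linarith) e)
  linarith

theorem uf2_closed (h : UF N M cl) : IsAlgClosed K := by
  refine IsAlgClosed.of_exists_root K fun p hp hirr => ?_
  have hd : 0 < p.natDegree := hirr.natDegree_pos
  choose a ha using fun i : ℕ => h.surj (p.coeff i)
  choose z hz hb using fun n => uf2_root p.natDegree hd fun i => (a i).1 n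
  have hzM : z ∈ M := by
    have h1 : ∀ i, (fun n => ((‖(a i).1 n‖ : ℝ) : ℂ)) ∈ M := fun i =>
      uf2_dom h (a i).2 (Eventually.of_forall fun n => by simp)
    have h2 : (1 + ∑ i ∈ range p.natDegree, fun n => ((‖(a i).1 n‖ : ℝ) : ℂ)) ∈ M :=
      M.add_mem M.one_mem (M.sum_mem fun i _ => h1 i)
    refine uf2_dom h h2 (Eventually.of_forall fun n => (hb n).trans ?_)
    have e1 : (1 + ∑ i ∈ range p.natDegree, fun n => ((‖(a i).1 n‖ : ℝ) : ℂ)) n =
        ((1 + ∑ i ∈ range p.natDegree, ‖(a i).1 n‖ : ℝ) : ℂ) := by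
      simp [Finset.sum_apply]
    rw [e1, Complex.norm_real]
    exact le_abs_self _
  refine ⟨cl ⟨z, hzM⟩, ?_⟩
  have e0 : (⟨z, hzM⟩ : M) ^ p.natDegree + ∑ i ∈ range p.natDegree, a i * ⟨z, hzM⟩ ^ i = 0 := by
    apply Subtype.ext
    funext n
    have := hz n
    simpa [Finset.sum_apply] using this
  have e1 := congrArg cl e0
  rw [map_add, map_pow, map_sum, map_zero] at e1
  rw [Polynomial.eval_eq_sum_range, sum_range_succ, hp.coeff_natDegree, one_mul, add_comm, ← e1]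
  congr 1
  exact sum_congr rfl fun i _ => by rw [map_mul, map_pow, ha]

theorem uf2_complete (h : UF N M cl) : CompleteSpace K := by
  classical
  refine Metric.complete_of_convergent_controlled_sequences (fun k => Real.exp (-(k : ℝ)))
    (fun k => Real.exp_pos _) fun u hu => ?_
  choose x hx using fun k => h.surj (u k)
  let P : ℕ → ℕ → Prop := fun n j =>
    ∀ k ≤ j, ‖(x k).1 n - (x j).1 n‖ ≤ (N n : ℝ) ^ (-(k : ℝ))
  have hP : ∀ j, ∀ᶠ n in hyperfilter ℕ, P n j := by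
    intro j
    have : ∀ᶠ n in hyperfilter ℕ, ∀ k ∈ Finset.range (j + 1),
        ‖(x k).1 n - (x j).1 n‖ ≤ (N n : ℝ) ^ (-(k : ℝ)) := by
      refine (eventually_all_finset _).2 fun k hk => ?_
      refine h.lt (x k - x j) _ ?_
      rw [map_sub, hx, hx, ← dist_eq_norm]
      exact hu k k j le_rfl (Nat.lt_succ_iff.1 (mem_range.1 hk))
    filter_upwards [this] with n hn k hk using hn k (mem_range.2 (Nat.lt_succ_iff.2 hk))
  let z : ℕ → ℂ := fun n => (x (Nat.findGreatest (P n) n)).1 n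
  have hz : ∀ k, ∀ᶠ n in hyperfilter ℕ, ‖(x k).1 n - z n‖ ≤ (N n : ℝ) ^ (-(k : ℝ)) := by
    intro k
    filter_upwards [hP k, (eventually_ge_atTop k).filter_mono Nat.hyperfilter_le_atTop]
      with n h1 h2
    exact Nat.findGreatest_spec h2 h1 k (Nat.le_findGreatest h2 h1)
  have hzM : z ∈ M := by
    have h1 : (x 0).1 - z ∈ M := by
      refine uf2_dom h M.one_mem ?_
      filter_upwards [hz 0] with n hn using by simpa using hn
    have := M.sub_mem (x 0).2 h1
    rwa [sub_sub_cancel] at this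
  refine ⟨cl ⟨z, hzM⟩, ?_⟩
  rw [tendsto_iff_norm_sub_tendsto_zero]
  have hlim : Tendsto (fun k : ℕ => Real.exp (-(k : ℝ))) atTop (𝓝 0) :=
    Real.tendsto_exp_neg_atTop_nhds_zero.comp tendsto_natCast_atTop_atTop
  refine squeeze_zero (fun k => norm_nonneg _) (fun k => ?_) hlim
  rw [← hx, ← map_sub]
  exact h.le _ _ (hz k)

theorem uf2_exp (hN : Tendsto N atTop atTop) (h : UF N M cl) (x y : M) (hx : ‖cl x‖ < 1)
    (hy : ∀ n, y.1 n = Complex.exp (x.1 n)) : cl y = ex K (cl x) := by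
  have := uf2_complete h
  have hUK := uf2_UK hN h
  obtain ⟨t, ht, hlt⟩ := uf2_lt_one (norm_nonneg _) hx
  have hev := h.lt _ _ hlt
  let c : ℕ → M := fun k => ⟨fun _ => ((k.factorial : ℂ))⁻¹, uf2_const hN h _⟩
  have hc : ∀ k, cl (c k) = ((k.factorial : K))⁻¹ := by
    intro k
    apply eq_inv_of_mul_eq_one_left
    rw [← map_natCast cl, ← map_mul, ← map_one cl]
    congr 1
    apply Subtype.ext
    funext n
    have : ((k.factorial : ℂ)) ≠ 0 := by exact_mod_cast k.factorial_ne_zero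
    simp [c, this]
  have hsum : Summable fun k : ℕ => ((k.factorial : K)⁻¹) • cl x ^ k := by
    refine Summable.of_norm_bounded (summable_geometric_of_lt_one (norm_nonneg _) hx) fun k => ?_
    rw [norm_smul, norm_inv, hUK _ k.factorial_ne_zero, inv_one, one_mul, norm_pow]
  refine tendsto_nhds_unique ?_ hsum.hasSum.tendsto_sum_nat
  rw [tendsto_iff_norm_sub_tendsto_zero]
  have hlim : Tendsto (fun m : ℕ => Real.exp (-(t * m))) atTop (𝓝 0) :=
    Real.tendsto_exp_neg_atTop_nhds_zero.comp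
      (tendsto_natCast_atTop_atTop.const_mul_atTop ht)
  refine squeeze_zero' (Eventually.of_forall fun k => norm_nonneg _) ?_ hlim
  filter_upwards [eventually_gt_atTop 0] with m hm
  have e1 : ∑ k ∈ range m, ((k.factorial : K)⁻¹) • cl x ^ k - cl y =
      cl (∑ k ∈ range m, c k * x ^ k - y) := by
    rw [map_sub, map_sum]
    congr 1
    exact sum_congr rfl fun k _ => by rw [map_mul, map_pow, hc, smul_eq_mul]
  rw [e1]
  refine uf2_le hN h _ ((m.succ : ℝ) * (m.factorial * m : ℝ)⁻¹) _ ?_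
  filter_upwards [hev, uf2_evN hN 1] with n h1 h2
  have h3 : ‖x.1 n‖ ≤ 1 := h1.trans (Real.rpow_le_one_of_one_le_of_nonpos h2 (by linarith))
  have e2 : (∑ k ∈ range m, c k * x ^ k - y : M).1 n =
      -(Complex.exp (x.1 n) - ∑ k ∈ range m, x.1 n ^ k / k.factorial) := by
    rw [neg_sub, ← hy]
    simp [c, Finset.sum_apply, div_eq_inv_mul]
  rw [e2, norm_neg]
  refine (Complex.exp_bound h3 hm).trans ?_
  rw [mul_comm]
  refine mul_le_mul_of_nonneg_left ?_ (by positivity)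
  calc ‖x.1 n‖ ^ m ≤ ((N n : ℝ) ^ (-t)) ^ m := pow_le_pow_left₀ (norm_nonneg _) h1 m
    _ = (N n : ℝ) ^ (-(t * m)) := by
      rw [← Real.rpow_natCast, ← Real.rpow_mul (by linarith)]
      congr 1
      ring

end

theorem sUF2 : SUF2 := fun _ _ _ _ _ _ hN h =>
  ⟨uf2_complete h, uf2_closed h, uf2_UK hN h, uf2_exp hN h⟩

end Pool.Agent.MP_c1891a_nt.G43
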